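import Pool.Agent.J6H17.RF.Stm
import Pool.Agent.H628R3.RO.A3

/-!
# Project RF, module HARD: the universal set is hard for `NP`
-/

set_option autoImplicit false

namespace Pool.Agent.J6H80.RF

open Pool.Agent.NPC Pool.Agent.H628R3.RO Pool.Agent.J6H17.RF

theorem poly_bits {α : Type} [TEnc α] : Poly (fun a : α => bits a) := by
  have h : PC (bits : α → List Bool) (fun x : List Bool => x) (fun a : α => bits a) :=
    (PC.id : PC (bits : α → List Bool) (bits : α → List Bool) (fun a => a))
  exact PC.comp (g := fun x => x) (f := fun a : α => bits a) PC.rawIn h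

theorem bits_inj {α : Type} [TEnc α] {a b : α} (h : bits a = bits b) : a = b :=
  TEnc.inj (T.enc_injective h)

/-- the padding -/
theorem poly_pad (p : Polynomial ℕ) :
    Poly (fun w : List Bool => List.replicate (p.eval w.length) true) := by
  have h1 : Poly (fun w : List Bool => List.replicate (p.eval w.length) ()) :=
    UPoly.eval (UPoly.length NPC.Poly.id) p
  refine (NPC.Poly.map (F := fun _ _ => true) h1 (NPC.Poly.const true)).congr fun w => ?_
  simp

theorem main (h : S_NUM) : S_HARD := by
  intro A B μ hB L hL
  obtain ⟨e, p, hp⟩ := hB.univ L hL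
  obtain ⟨-, hc, hbits⟩ := h
  let f : List Bool → ℕ × ℕ × ℕ := fun w =>
    (e, codeN w, codeN (List.replicate (p.eval w.length) true))
  have hf : Poly f := NPC.Poly.pair (NPC.Poly.const e) (NPC.Poly.pair hc (hc.comp (poly_pad p)))
  refine ⟨fun w => bits (f w), IsFP.of_poly (poly_bits.comp hf), fun w => ?_⟩
  have hz : p.eval w.length ≤ (codeN (List.replicate (p.eval w.length) true)).size := by
    rw [← Nat.size_eq_bits_len, hbits]
    simp
  rw [hp w _ hz]
  constructor
  · intro h1
    exact ⟨e, codeN w, codeN (List.replicate (p.eval w.length) true), rfl, h1⟩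
  · rintro ⟨e', x', z', h1, h2⟩
    have h3 : f w = (e', x', z') := bits_inj h1
    simp only [f, Prod.mk.injEq] at h3
    obtain ⟨rfl, rfl, rfl⟩ := h3
    exact h2

end Pool.Agent.J6H80.RF
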